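import Pool.Agent.T9h72.KU.Spec

/-!
# Project KU, piece ZERO: the case of the value zero
-/

set_option autoImplicit false

namespace Pool.Agent.T9h8.KU

open MeasureTheory ProbabilityTheory Set Filter Topology Pool.Agent.R190.KR
open Pool.Agent.T9h72.KU

variable (n m : ℕ)

theorem pattern (hn : 1 ≤ n) (hm : 1 ≤ m) (hI : N1 n m ≤ 0) :
    ∃ c ∈ Ico (1 / 2 : ℝ) 1, (∀ x ∈ Icc (1 / 2 : ℝ) c, 0 ≤ S n m x) ∧
      ∀ x ∈ Icc c 1, S n m x ≤ 0 := by
  by_cases hcase : ∀ x ∈ Icc (1 / 2 : ℝ) 1, S n m x ≤ 0
  · refine ⟨1 / 2, ⟨le_rfl, by norm_num⟩, ?_, hcase⟩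
    intro x hx
    have : x = 1 / 2 := le_antisymm hx.2 hx.1
    rw [this, S_half]
  push Not at hcase
  obtain ⟨x0, hx0, hx0p⟩ := hcase
  have hx1 : 1 / 2 < x0 := by
    rcases hx0.1.eq_or_lt with h | h
    · rw [← h, S_half] at hx0p; exact absurd hx0p (lt_irrefl _)
    · exact h
  have hx2 : x0 < 1 := by
    rcases hx0.2.eq_or_lt with h | h
    · rw [h, S_at_one n m hn hm] at hx0p; exact absurd hx0p (lt_irrefl _)
    · exact h
  have hcont : ContinuousOn (S n m) (Icc (1 / 2 : ℝ) 1) :=
    (continuousOn_S n m hm).mono (Icc_subset_Icc (by norm_num) le_rfl)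
  obtain ⟨y0, hy0, hy0n⟩ : ∃ y ∈ Ioc (1 / 2 : ℝ) 1, S n m y < 0 := by
    by_contra hcon
    push Not at hcon
    have hcont2 : ContinuousOn (fun x => S n m x * (x - 1 / 2)) (Icc (1 / 2 : ℝ) 1) :=
      hcont.mul (by fun_prop)
    have h1 := intervalIntegral.integral_pos (by norm_num : (1 / 2 : ℝ) < 1) hcont2
      (fun x hx => mul_nonneg (hcon x hx) (by linarith [hx.1]))
      ⟨x0, hx0, mul_pos hx0p (by linarith)⟩
    unfold N1 at hI
    linarith
  have hy1 : y0 < 1 := by
    rcases hy0.2.eq_or_lt with h | h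
    · rw [h, S_at_one n m hn hm] at hy0n; exact absurd hy0n (lt_irrefl _)
    · exact h
  have hxy : x0 < y0 := by
    rcases lt_trichotomy x0 y0 with h | h | h
    · exact h
    · rw [h] at hx0p; linarith
    · have := S_pos_initial n m hy0.1 h hx2 hx0p
      linarith
  obtain ⟨c, hc, hcS⟩ := intermediate_value_Icc' hxy.le
    (hcont.mono (Icc_subset_Icc hx1.le hy1.le)) (show (0 : ℝ) ∈ Icc (S n m y0) (S n m x0) from
      ⟨hy0n.le, hx0p.le⟩)
  have hc0 : 1 / 2 < c := by linarith [hc.1]
  have hc1 : c < 1 := by linarith [hc.2]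
  refine ⟨c, ⟨hc0.le, hc1⟩, ?_, ?_⟩
  · intro x hx
    rcases hx.1.eq_or_lt with h | h
    · rw [← h, S_half]
    · rcases hx.2.eq_or_lt with h' | h'
      · rw [h', hcS]
      · exact S_nonneg_initial n m h h' hc1 hcS.ge
  · intro x hx
    rcases hx.1.eq_or_lt with h | h
    · rw [← h, hcS]
    · rcases hx.2.eq_or_lt with h' | h'
      · rw [h', S_at_one n m hn hm]
      · by_contra hcon
        push Not at hcon
        have := S_pos_initial n m hc0 h h' hcon
        linarith

theorem zero : S_OPT → S_VAL → S_ZERO := by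
  intro hOPT hVAL n m hn hm hI
  have hK := K_pos n m
  constructor
  · rintro r ⟨μ, h, rfl⟩
    rw [recMean_sub n m hm h.sym]
    obtain ⟨B, hB⟩ := exists_bound_S n m hm
    obtain ⟨c, hc, hc1, hc2⟩ := pattern n m hn hm hI
    have h1 := hOPT μ h (S n m) (measurable_S n m) B hB (fun x _ => S_one_sub n m x) (1 / 2) c
      le_rfl hc.1 hc.2 (fun x hx => by
        have : x = 1 / 2 := le_antisymm hx.2 hx.1
        rw [this, S_half]) hc1 hc2 (Or.inl rfl) hI
    apply div_nonpos_of_nonpos_of_nonneg _ h.sym.pos.le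
    exact mul_nonpos_of_nonneg_of_nonpos (by positivity) h1
  · intro b hb
    obtain ⟨B, hB⟩ := exists_bound_S n m hm
    have hB0 : 0 ≤ B := (abs_nonneg _).trans (hB 0 ⟨le_rfl, zero_le_one⟩)
    have hms := measurable_S n m
    have hval : ∀ N : ℕ, -(K n m * B) / Real.sqrt (4 * N + 3) ≤ b := by
      intro N
      have hodd : Odd (2 * N + 1) := ⟨N, rfl⟩
      have hle : ∀ x ∈ Icc (0 : ℝ) 1, |(2 * x - 1) ^ (2 * N + 1)| ≤ 1 := by
        intro x hx
        rw [abs_pow]
        apply pow_le_one₀ (abs_nonneg _)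
        rw [abs_le]; constructor <;> linarith [hx.1, hx.2]
      have hgood : GoodQ (fun x => (2 * x - 1) ^ (2 * N + 1))
          (fun x => ((2 * N + 1 : ℕ) : ℝ) * (2 * x - 1) ^ (2 * N) * 2) 1 (1 / 2) := by
        refine ⟨by fun_prop, fun x hx => hle x ⟨hx.1.le, hx.2.le⟩, fun x _ => ?_, ?_, ?_, ?_, ?_⟩
        · rw [show 2 * (1 - x) - 1 = -(2 * x - 1) by ring, hodd.neg_pow]
        · exact Continuous.continuousOn (by fun_prop)
        · intro x _ _
          have := (((hasDerivAt_id x).const_mul (2 : ℝ)).sub_const 1).fun_pow (2 * N + 1)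
          refine this.congr_deriv ?_
          simp only [id_eq, Nat.add_sub_cancel]
          ring
        · intro x hx
          have : 0 < 2 * x - 1 := by linarith [hx.1]
          positivity
        · intro x hx y hy hxy
          have h1 : 0 ≤ 2 * x - 1 := by linarith [hx.1]
          have h2 : (2 * x - 1) ^ (2 * N) ≤ (2 * y - 1) ^ (2 * N) :=
            pow_le_pow_left₀ h1 (by linarith) _
          dsimp only
          have h3 : (0 : ℝ) ≤ ((2 * N + 1 : ℕ) : ℝ) := Nat.cast_nonneg _
          nlinarith [mul_le_mul_of_nonneg_left h2 h3]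
      have hg := hVAL n m hm _ _ _ _ hgood
      refine le_trans ?_ (hb hg)
      have e2 : ∫ x in Ioo (0 : ℝ) 1, ((2 * x - 1) ^ (2 * N + 1)) ^ 2 = 1 / (4 * (N : ℝ) + 3) := by
        rw [even_integral]
        · have : ∀ x : ℝ, ((2 * x - 1) ^ (2 * N + 1)) ^ 2 = (2 * x - 1) ^ (4 * N + 2) := by
            intro x; rw [← pow_mul]; congr 1; ring
          simp only [this]
          rw [integral_pow_half]
          push_cast
          field_simp
          ring
        · intro x _
          rw [show 2 * (1 - x) - 1 = -(2 * x - 1) by ring, hodd.neg_pow]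
          ring
        · intro a b _ _ _
          exact Continuous.intervalIntegrable (by fun_prop) _ _
      have hi := ii_of_bound (q := fun x => (2 * x - 1) ^ (2 * N + 1) * S n m x)
        ((by fun_prop : Measurable fun x : ℝ => (2 * x - 1) ^ (2 * N + 1)).mul hms) (B := 1 * B)
        (fun x hx => by
          rw [abs_mul]; exact mul_le_mul (hle x hx) (hB x hx) (abs_nonneg _) zero_le_one)
      have e1 : -(B / (2 * N + 2)) ≤
          ∫ x in Ioo (0 : ℝ) 1, (2 * x - 1) ^ (2 * N + 1) * S n m x := by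
        rw [even_integral _ hi]
        · have h5 : ∫ x in (1 / 2 : ℝ)..1, -B * (2 * x - 1) ^ (2 * N + 1) ≤
              ∫ x in (1 / 2 : ℝ)..1, (2 * x - 1) ^ (2 * N + 1) * S n m x := by
            apply intervalIntegral.integral_mono_on (by norm_num)
              (Continuous.intervalIntegrable (by fun_prop) _ _)
              (hi _ _ (by norm_num) (by norm_num) le_rfl)
            intro x hx
            have h6 : 0 ≤ (2 * x - 1) ^ (2 * N + 1) := pow_nonneg (by linarith [hx.1]) _
            have h7 := (abs_le.1 (hB x ⟨by linarith [hx.1], hx.2⟩)).1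
            have := mul_le_mul_of_nonneg_left h7 h6
            linarith
          rw [intervalIntegral.integral_const_mul, integral_pow_half] at h5
          have h8 : -B * (1 / (2 * (((2 * N + 1 : ℕ) : ℝ) + 1))) = -(B / (2 * N + 2)) / 2 := by
            push_cast
            field_simp
            ring
          rw [h8] at h5
          linarith
        · intro x _
          rw [show 2 * (1 - x) - 1 = -(2 * x - 1) by ring, hodd.neg_pow, S_one_sub]
          ring
      rw [e2]
      have hp : (0 : ℝ) < 4 * N + 3 := by positivity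
      rw [one_div, Real.sqrt_inv, div_inv_eq_mul]
      have hs := Real.sqrt_pos.2 hp
      have hs2 := Real.mul_self_sqrt hp.le
      generalize Real.sqrt (4 * (N : ℝ) + 3) = σ at *
      have h9 : K n m / 2 * -(B / (2 * N + 2)) * σ ≤
          K n m / 2 * (∫ x in Ioo (0 : ℝ) 1, (2 * x - 1) ^ (2 * N + 1) * S n m x) * σ := by
        gcongr
      refine le_trans ?_ h9
      rw [div_le_iff₀ hs]
      have h10 : K n m / 2 * -(B / (2 * N + 2)) * σ * σ = -(K n m * B) * ((σ * σ) / (4 * N + 4)) := by
        field_simp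
        ring
      rw [h10, hs2]
      have h11 : (4 * (N : ℝ) + 3) / (4 * N + 4) ≤ 1 := by
        rw [div_le_one (by positivity)]; linarith
      have h12 : 0 ≤ K n m * B := by positivity
      nlinarith
    have hlim : Tendsto (fun N : ℕ => -(K n m * B) / Real.sqrt (4 * N + 3)) atTop (𝓝 0) := by
      apply Tendsto.div_atTop tendsto_const_nhds
      apply Real.tendsto_sqrt_atTop.comp
      apply tendsto_atTop_add_const_right
      exact tendsto_natCast_atTop_atTop.const_mul_atTop (by norm_num)
    exact le_of_tendsto' hlim hval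

end Pool.Agent.T9h8.KU
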